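import Pool.Agent.helper81.DI.SpecB

set_option autoImplicit false

namespace Pool.Agent.DI

open Pool.Agent.helper58.DC

theorem B5_q (Q : Type) [CommGroup Q] [Finite Q] :
    Nat.card (Q →* ℂˣ) = Nat.card Q ∧ ∀ q : Q, q ≠ 1 → ∃ φ : Q →* ℂˣ, φ q ≠ 1 := by
  have h : NeZero (Monoid.exponent Q) := ⟨Monoid.exponent_ne_zero_of_finite⟩
  exact ⟨CommGroup.card_monoidHom_of_hasEnoughRootsOfUnity Q ℂ,
    fun q hq => CommGroup.exists_apply_ne_one_of_hasEnoughRootsOfUnity Q ℂ hq⟩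

theorem B5 : B5_stmt := by
  classical
  intro H _ _ K hK
  obtain ⟨hn, s, hs⟩ := hK
  have hcyc : IsCyclic (H ⧸ K) := by
    refine ⟨⟨(s : H ⧸ K), fun q => ?_⟩⟩
    obtain ⟨x, rfl⟩ := QuotientGroup.mk_surjective q
    obtain ⟨k, hk⟩ := hs x
    refine ⟨-k, ?_⟩
    have h1 : ((s ^ k * x : H) : H ⧸ K) = 1 := (QuotientGroup.eq_one_iff _).2 hk
    rw [QuotientGroup.mk_mul, QuotientGroup.mk_zpow] at h1
    show (s : H ⧸ K) ^ (-k) = (x : H ⧸ K)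
    rw [zpow_neg]
    exact (eq_inv_of_mul_eq_one_right h1).symm
  letI cg : CommGroup (H ⧸ K) := IsCyclic.commGroup
  obtain ⟨h1, h2⟩ := B5_q (H ⧸ K)
  have hfin : Finite ((H ⧸ K) →* ℂˣ) := by
    refine Nat.finite_of_card_ne_zero ?_
    rw [h1]
    exact Nat.card_pos.ne'
  refine ⟨(H ⧸ K) →* ℂˣ, inferInstance, hfin,
    { toFun := fun a => a.comp (QuotientGroup.mk' K)
      map_one' := rfl
      map_mul' := fun _ _ => rfl }, ?_, ?_, ?_, ?_⟩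
  · intro a b hab
    refine MonoidHom.ext fun q => ?_
    obtain ⟨x, rfl⟩ := QuotientGroup.mk_surjective q
    exact DFunLike.congr_fun hab x
  · rw [h1, Subgroup.card_eq_card_quotient_mul_card_subgroup K]
  · intro a x hx
    show a (x : H ⧸ K) = 1
    rw [(QuotientGroup.eq_one_iff _).2 hx, map_one]
  · intro x hx
    have hx1 : (x : H ⧸ K) ≠ 1 := fun h => hx ((QuotientGroup.eq_one_iff _).1 h)
    obtain ⟨φ, hφ⟩ := h2 _ hx1
    have : Fintype ((H ⧸ K) →* ℂˣ) := Fintype.ofFinite _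
    rw [finsum_eq_sum_of_fintype]
    show ∑ a : (H ⧸ K) →* ℂˣ, ((a (x : H ⧸ K) : ℂˣ) : ℂ) = 0
    have h3 : ∑ a : (H ⧸ K) →* ℂˣ, ((a (x : H ⧸ K) : ℂˣ) : ℂ) =
        ((φ (x : H ⧸ K) : ℂˣ) : ℂ) * ∑ a : (H ⧸ K) →* ℂˣ, ((a (x : H ⧸ K) : ℂˣ) : ℂ) := by
      rw [Finset.mul_sum, ← Equiv.sum_comp (Equiv.mulLeft φ)]
      refine Finset.sum_congr rfl fun a _ => ?_
      show (((φ * a) (x : H ⧸ K) : ℂˣ) : ℂ) = _
      rw [MonoidHom.mul_apply, Units.val_mul]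
    have h4 : ((φ (x : H ⧸ K) : ℂˣ) : ℂ) ≠ 1 := fun h => hφ (Units.ext h)
    have h5 : (1 - ((φ (x : H ⧸ K) : ℂˣ) : ℂ)) * ∑ a : (H ⧸ K) →* ℂˣ, ((a (x : H ⧸ K) : ℂˣ) : ℂ) = 0 := by
      rw [sub_mul, one_mul, ← h3, sub_self]
    exact (mul_eq_zero.1 h5).resolve_left (sub_ne_zero.2 (Ne.symm h4))

end Pool.Agent.DI
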