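import Pool.Agent.helper81.DI.SpecB

set_option autoImplicit false

namespace Pool.Agent.DI

open Pool.Agent.helper58.DC

section

variable {H : Type} [Group H]

theorem B9b_app (n : H) (ψ : H → ℂ) (x : H) : funMap (MulAut.conj n) ψ x = ψ (n⁻¹ * x * n) := by
  simp [funMap, mul_assoc]

theorem B9b_mul (a b : H) (ψ : H → ℂ) : funMap (MulAut.conj (a * b)) ψ =
    funMap (MulAut.conj a) (funMap (MulAut.conj b) ψ) := by
  funext g
  simp [funMap, mul_assoc]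

/-- the set of conjugates -/
def B9b_C (ψ : H → ℂ) : Set (H → ℂ) :=
  {ψ' : H → ℂ | ∃ n ∈ (⊤ : Subgroup H), ψ' = funMap (MulAut.conj n) ψ}

theorem B9b_mem (ψ : H → ℂ) : ψ ∈ B9b_C ψ := ⟨1, Subgroup.mem_top _, by funext g; simp [funMap]⟩

variable [Finite H]

theorem B9b_inner (hB2 : B2_stmt) (K : Subgroup H) (r : (H → ℂ) → ℂ) (f : H → ℂ)
    (hf : ∀ x ∈ K, f x = ∑ᶠ ψ ∈ IrrOn K, r ψ * ψ x) (θ : H → ℂ) (hθ : θ ∈ IrrOn K) :
    ∑ᶠ x : H, f x * θ x⁻¹ = r θ * (Nat.card K : ℂ) := by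
  classical
  have : Fintype H := Fintype.ofFinite H
  obtain ⟨hfin, h2⟩ := hB2 H K
  rw [finsum_eq_sum_of_fintype]
  have h3 : ∀ x : H, f x * θ x⁻¹ = ∑ ψ ∈ hfin.toFinset, r ψ * (ψ x * θ x⁻¹) := by
    intro x
    by_cases hx : x ∈ K
    · rw [hf x hx, finsum_mem_eq_finite_toFinset_sum _ hfin, Finset.sum_mul]
      exact Finset.sum_congr rfl fun ψ _ => mul_assoc _ _ _
    · have h4 : θ x⁻¹ = 0 := (h2 θ hθ).2.2.2.1 _ (fun h => hx (by simpa using K.inv_mem h))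
      rw [h4, mul_zero]
      symm
      refine Finset.sum_eq_zero fun ψ _ => ?_
      rw [mul_zero, mul_zero]
  rw [Finset.sum_congr rfl fun x _ => h3 x, Finset.sum_comm]
  have h5 : ∀ ψ ∈ hfin.toFinset, ∑ x : H, r ψ * (ψ x * θ x⁻¹) =
      if ψ = θ then r θ * (Nat.card K : ℂ) else 0 := by
    intro ψ hψ
    have hψ' : ψ ∈ IrrOn K := hfin.mem_toFinset.1 hψ
    rw [← Finset.mul_sum]
    have h6 := (h2 ψ hψ').2.2.2.2 θ hθ
    rw [finsum_eq_sum_of_fintype] at h6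
    rw [h6]
    split_ifs with h
    · rw [h]
    · rw [mul_zero]
  rw [Finset.sum_congr rfl h5, Finset.sum_ite_eq']
  rw [if_pos (hfin.mem_toFinset.2 hθ)]

omit [Finite H] in
open Classical in
theorem B9b_ind (K : Subgroup H) (hfin : (IrrOn K).Finite) (Cj : Set (H → ℂ))
    (hC : Cj ⊆ IrrOn K) (x : H) :
    ∑ᶠ ψ' ∈ IrrOn K, (if ψ' ∈ Cj then (1 : ℂ) else 0) * ψ' x = ∑ᶠ ψ' ∈ Cj, ψ' x := by
  rw [finsum_mem_eq_finite_toFinset_sum _ hfin, finsum_mem_eq_finite_toFinset_sum _ (hfin.subset hC)]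
  have h1 : (hfin.subset hC).toFinset = hfin.toFinset.filter (fun ψ' => ψ' ∈ Cj) := by
    ext ψ'
    rw [Finset.mem_filter, Set.Finite.mem_toFinset, Set.Finite.mem_toFinset]
    exact ⟨fun h => ⟨hC h, h⟩, fun h => h.2⟩
  rw [h1, Finset.sum_filter]
  refine Finset.sum_congr rfl fun ψ' _ => ?_
  split_ifs <;> simp

theorem B9b_conj (ψ : H → ℂ) (x : H) :
    ∑ᶠ t : H, funMap (MulAut.conj t) ψ x =
      (Nat.card (stF (⊤ : Subgroup H) ψ) : ℂ) * ∑ᶠ ψ' ∈ B9b_C ψ, ψ' x := by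
  classical
  have : Fintype H := Fintype.ofFinite H
  set g : H → (H → ℂ) := fun t => funMap (MulAut.conj t) ψ with hg
  have hset : B9b_C ψ = ((Finset.univ.image g : Finset (H → ℂ)) : Set (H → ℂ)) := by
    ext ψ'
    rw [Finset.coe_image, Finset.coe_univ, Set.image_univ]
    constructor
    · rintro ⟨n, -, rfl⟩
      exact ⟨n, rfl⟩
    · rintro ⟨n, rfl⟩
      exact ⟨n, Subgroup.mem_top _, rfl⟩
  rw [hset, finsum_mem_coe_finset, finsum_eq_sum_of_fintype]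
  have h1 := Finset.sum_comp (s := (Finset.univ : Finset H)) (fun φ : H → ℂ => φ x) g
  rw [show ∑ t : H, funMap (MulAut.conj t) ψ x = ∑ t : H, (fun φ : H → ℂ => φ x) (g t) from rfl,
    h1, Finset.mul_sum]
  refine Finset.sum_congr rfl fun ψ' hψ' => ?_
  obtain ⟨t0, -, ht0⟩ := Finset.mem_image.1 hψ'
  rw [nsmul_eq_mul]
  congr 2
  rw [Nat.card_eq_fintype_card, ← Fintype.card_coe]
  refine Fintype.card_congr ⟨fun t => ⟨t0⁻¹ * t.1, Subgroup.mem_top _, ?_⟩,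
    fun s => ⟨t0 * s.1, ?_⟩, fun t => Subtype.ext (by simp), fun s => Subtype.ext (by simp)⟩
  · have h2 : funMap (MulAut.conj t.1) ψ = ψ' := (Finset.mem_filter.1 t.2).2
    rw [B9b_mul, h2, ← ht0]
    show funMap (MulAut.conj t0⁻¹) (funMap (MulAut.conj t0) ψ) = ψ
    rw [← B9b_mul, inv_mul_cancel]
    funext g
    simp [funMap]
  · refine Finset.mem_filter.2 ⟨Finset.mem_univ _, ?_⟩
    show funMap (MulAut.conj (t0 * s.1)) ψ = ψ'
    rw [B9b_mul, s.2.2]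
    exact ht0

end

theorem B9b (hB0 : B0_stmt) (hB1 : B1_stmt) (hB2 : B2_stmt) (hB3 : B3_stmt) (hB7 : B7_stmt)
    (hB9a : B9a_stmt) (hIRT : IRT_stmt) (hIF : IF_stmt) : B9b_stmt := by
  classical
  intro H _ _ K hK ψ hψ
  have : Fintype H := Fintype.ofFinite H
  obtain ⟨hfinK, hirrK⟩ := hB2 H K
  have hKS : K ≤ stF (⊤ : Subgroup H) ψ := by
    intro k hk
    refine ⟨Subgroup.mem_top _, ?_⟩
    funext x
    rw [B9b_app]
    have := (hirrK ψ hψ).2.1 x k⁻¹ (K.inv_mem hk)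
    rwa [inv_inv] at this
  set S := stF (⊤ : Subgroup H) ψ with hS
  have hCK : B9b_C ψ ⊆ IrrOn K := by
    rintro _ ⟨n, -, rfl⟩
    have h1 := ((hIF H K).2 ψ hψ).2.2 (MulAut.conj n)
    have h2 : K.map (MulAut.conj n).toMonoidHom = K := by
      ext x
      rw [Subgroup.mem_map]
      constructor
      · rintro ⟨k, hk, rfl⟩
        exact hK.1.conj_mem k hk n
      · intro hx
        refine ⟨n⁻¹ * x * n, ?_, ?_⟩
        · have := hK.1.conj_mem x hx n⁻¹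
          rwa [inv_inv] at this
        · show n * (n⁻¹ * x * n) * n⁻¹ = x
          group
    rwa [h2] at h1
  -- extension to S
  obtain ⟨θ, hθ, hθψ⟩ : ∃ θ ∈ IrrOn S, ∀ x ∈ K, θ x = ψ x := by
    have hc : CycQ (K.subgroupOf S) := hB0.2.1 H K S hK
    have hψS : (fun s : S => ψ s) ∈ IrrOn (K.subgroupOf S) := by
      refine ⟨fun g hg => hψ.1 _ (fun h => hg (Subgroup.mem_subgroupOf.2 h)), ?_⟩
      exact hIRT _ _ (Subgroup.subgroupOfEquivOfLe hKS) _ hψ.2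
    obtain ⟨φ, hφ, hφψ⟩ := hB7 S (K.subgroupOf S) hc (fun s : S => ψ s) hψS (by
      intro h
      funext x
      rw [B9b_app]
      have h1 := congrFun h.2.2 (x : H)
      rw [B9b_app] at h1
      exact h1)
    refine ⟨fun x => if hx : x ∈ S then φ ⟨x, hx⟩ else 0, ⟨fun g hg => dif_neg hg, ?_⟩, ?_⟩
    · have : (fun h : S => (fun x => if hx : x ∈ S then φ ⟨x, hx⟩ else 0) (h : H)) = φ := by
        funext h
        exact dif_pos h.2
      rw [this]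
      exact hφ
    · intro x hx
      have hxS : x ∈ S := hKS hx
      show (if hx : x ∈ S then φ ⟨x, hx⟩ else 0) = ψ x
      rw [dif_pos hxS]
      exact hφψ ⟨x, hxS⟩ (Subgroup.mem_subgroupOf.2 hx)
  obtain ⟨m, hm⟩ := hB9a H S θ hθ
  have hS0 : (Nat.card S : ℂ) ≠ 0 := Nat.cast_ne_zero.2 Nat.card_pos.ne'
  have hK0 : (Nat.card K : ℂ) ≠ 0 := Nat.cast_ne_zero.2 Nat.card_pos.ne'
  -- the induced character on K
  have hFK : ∀ x ∈ K, ∑ᶠ φ ∈ Irr H, (m φ : ℂ) * φ x =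
      ∑ᶠ ψ' ∈ IrrOn K, (if ψ' ∈ B9b_C ψ then (1 : ℂ) else 0) * ψ' x := by
    intro x hx
    rw [B9b_ind K hfinK _ hCK, ← hm x]
    have h1 : ∀ t : H, θ (t⁻¹ * x * t) = funMap (MulAut.conj t) ψ x := by
      intro t
      rw [B9b_app]
      refine hθψ _ ?_
      have := hK.1.conj_mem x hx t⁻¹
      rwa [inv_inv] at this
    rw [finsum_congr h1, B9b_conj, ← mul_assoc, inv_mul_cancel₀ hS0, one_mul]
  have hr : ∀ φ : H → ℂ, ∃ r : (H → ℂ) → ℕ, φ ∈ Irr H →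
      ∀ x ∈ K, φ x = ∑ᶠ ψ' ∈ IrrOn K, (r ψ' : ℂ) * ψ' x := by
    intro φ
    by_cases hφ : φ ∈ Irr H
    · obtain ⟨r, hr⟩ := hB3 H K φ hφ
      exact ⟨r, fun _ => hr⟩
    · exact ⟨fun _ => 0, fun h => absurd h hφ⟩
  choose r hr using hr
  have hfinH := (hB1 H).1
  have hcoef : ∀ θ' ∈ IrrOn K, ∑ φ ∈ hfinH.toFinset, m φ * r φ θ' =
      if θ' ∈ B9b_C ψ then 1 else 0 := by
    intro θ' hθ'
    have h1 := B9b_inner hB2 K (fun ψ' => if ψ' ∈ B9b_C ψ then (1 : ℂ) else 0)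
      (fun x => ∑ᶠ φ ∈ Irr H, (m φ : ℂ) * φ x) hFK θ' hθ'
    have h2 : ∑ᶠ x : H, (∑ᶠ φ ∈ Irr H, (m φ : ℂ) * φ x) * θ' x⁻¹ =
        ((∑ φ ∈ hfinH.toFinset, m φ * r φ θ' : ℕ) : ℂ) * (Nat.card K : ℂ) := by
      rw [finsum_eq_sum_of_fintype]
      have h3 : ∀ x : H, (∑ᶠ φ ∈ Irr H, (m φ : ℂ) * φ x) * θ' x⁻¹ =
          ∑ φ ∈ hfinH.toFinset, (m φ : ℂ) * (φ x * θ' x⁻¹) := by
        intro x
        rw [finsum_mem_eq_finite_toFinset_sum _ hfinH, Finset.sum_mul]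
        exact Finset.sum_congr rfl fun φ _ => mul_assoc _ _ _
      rw [Finset.sum_congr rfl fun x _ => h3 x, Finset.sum_comm, Nat.cast_sum, Finset.sum_mul]
      refine Finset.sum_congr rfl fun φ hφ => ?_
      have h4 := B9b_inner hB2 K (fun ψ' => (r φ ψ' : ℂ)) φ (hr φ (hfinH.mem_toFinset.1 hφ)) θ' hθ'
      rw [finsum_eq_sum_of_fintype] at h4
      rw [← Finset.mul_sum, h4]
      push_cast
      ring
    rw [h2] at h1
    have h5 := mul_right_cancel₀ hK0 h1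
    have h6 : ((∑ φ ∈ hfinH.toFinset, m φ * r φ θ' : ℕ) : ℂ) =
        ((if θ' ∈ B9b_C ψ then 1 else 0 : ℕ) : ℂ) := by
      rw [h5]
      simp
    exact_mod_cast h6
  -- a constituent
  have h1 := hcoef ψ hψ
  rw [if_pos (B9b_mem ψ)] at h1
  obtain ⟨φ, hφ, hφ0⟩ : ∃ φ ∈ hfinH.toFinset, m φ * r φ ψ ≠ 0 := by
    by_contra hcon
    push Not at hcon
    rw [Finset.sum_eq_zero hcon] at h1
    exact zero_ne_one h1
  have hφI : φ ∈ Irr H := hfinH.mem_toFinset.1 hφ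
  have hle : ∀ θ' ∈ IrrOn K, m φ * r φ θ' ≤ if θ' ∈ B9b_C ψ then 1 else 0 := by
    intro θ' hθ'
    rw [← hcoef θ' hθ']
    exact Finset.single_le_sum (f := fun φ => m φ * r φ θ') (fun _ _ => Nat.zero_le _) hφ
  have hm0 : 0 < m φ := Nat.pos_of_ne_zero fun h => hφ0 (by rw [h, zero_mul])
  have hr1 : r φ ψ = 1 := by
    have h2 := hle ψ hψ
    rw [if_pos (B9b_mem ψ)] at h2
    have h3 : r φ ψ ≠ 0 := fun h => hφ0 (by rw [h, mul_zero])
    have h4 : r φ ψ ≤ m φ * r φ ψ := Nat.le_mul_of_pos_left _ hm0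
    omega
  have hrC : ∀ θ' ∈ B9b_C ψ, r φ θ' = 1 := by
    rintro θ' hθ'
    have hθ'K := hCK hθ'
    obtain ⟨n, -, rfl⟩ := hθ'
    have e1 := B9b_inner hB2 K (fun ψ' => (r φ ψ' : ℂ)) φ (hr φ hφI) _ hθ'K
    have e2 := B9b_inner hB2 K (fun ψ' => (r φ ψ' : ℂ)) φ (hr φ hφI) ψ hψ
    have e3 : ∑ᶠ x : H, φ x * funMap (MulAut.conj n) ψ x⁻¹ = ∑ᶠ x : H, φ x * ψ x⁻¹ := by
      rw [finsum_eq_sum_of_fintype, finsum_eq_sum_of_fintype]
      rw [← Equiv.sum_comp (MulAut.conj n).toEquiv]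
      refine Finset.sum_congr rfl fun x _ => ?_
      have e4 : (MulAut.conj n).toEquiv x = n * x * n⁻¹ := rfl
      rw [e4, ((hB1 H).2 φ hφI).2.1, B9b_app]
      congr 2
      group
    rw [e1, e2] at e3
    have e5 := mul_right_cancel₀ hK0 e3
    have e6 : r φ (funMap (MulAut.conj n) ψ) = r φ ψ := by exact_mod_cast e5
    rw [e6, hr1]
  have hrN : ∀ θ' ∈ IrrOn K, θ' ∉ B9b_C ψ → r φ θ' = 0 := by
    intro θ' hθ' hn
    have h2 := hle θ' hθ'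
    rw [if_neg hn] at h2
    have h3 := Nat.le_zero.1 h2
    rcases Nat.mul_eq_zero.1 h3 with h | h
    · omega
    · exact h
  refine ⟨φ, hφI, fun x hx => ?_⟩
  show φ x = ∑ᶠ ψ' ∈ B9b_C ψ, ψ' x
  rw [hr φ hφI x hx, ← B9b_ind K hfinK _ hCK]
  refine finsum_mem_congr rfl fun ψ' hψ' => ?_
  by_cases h : ψ' ∈ B9b_C ψ
  · rw [if_pos h, hrC ψ' h, Nat.cast_one]
  · rw [if_neg h, hrN ψ' hψ' h, Nat.cast_zero]

end Pool.Agent.DI
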